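import Pool.Agent.R468.RC.N

/-!
THE LAW OF THE MAXIMUM EXCURSION AMONG THE INTEGERS WITH ONE FIXED TOTAL STOPPING TIME (local level).

Author: helper468. Uses the local limit law of the total stopping time in residue classes
(Pool/Agent/R468/GL, Pool/Agent/R468/RC), the thin sets of Pool/Agent/R344/TH and the limit law of the
ratio `t(n) / n` (Pool/Agent/H499R2/NDExc2).
-/

set_option autoImplicit false

namespace Pool.Agent.Results.MP_0a5adf_nt.ExcursionLocalLaw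

open Filter Topology

/-- the accelerated `3x+1` map -/
def T (n : ℕ) : ℕ := if n % 2 = 0 then n / 2 else (3 * n + 1) / 2

/-- `t(n) ≤ c`, where `t(n)` is the maximum excursion of `n` -/
def ExcursionLE (n : ℕ) (c : ℝ) : Prop := ∀ k : ℕ, (T^[k] n : ℝ) ≤ c

/-- `k` is the total stopping time of `n` -/
def IsTotalStoppingTime (n k : ℕ) : Prop := T^[k] n = 1 ∧ ∀ j < k, T^[j] n ≠ 1

/-- the number of the positive integers `n ≤ x` with total stopping time exactly `k`, with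
`t(n) ≤ lam * n` and with `n ≡ r` modulo `Q` -/
noncomputable def N (lam : ℝ) (Q r : ℕ) (x : ℝ) (k : ℕ) : ℕ :=
  {n : ℕ | 1 ≤ n ∧ (n : ℝ) ≤ x ∧ (n ≡ r [MOD Q] ∧ ExcursionLE n (lam * n)) ∧ IsTotalStoppingTime n k}.ncard

/-- the positive integers with the property `P` have the natural density `δ` -/
def HasDensity (P : ℕ → Prop) (δ : ℝ) : Prop :=
  Tendsto (fun M : ℕ => ({n : ℕ | 1 ≤ n ∧ n ≤ M ∧ P n}.ncard : ℝ) / M) atTop (𝓝 δ)

/-- words `w` of length `K` over `{0,1}` with `3^(w_0+...+w_(k-1)) / 2^k < lam` for `1 ≤ k ≤ K` -/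
def safeWords (K : ℕ) (lam : ℝ) : Set (Fin K → Fin 2) :=
  {w | ∀ k, 1 ≤ k → k ≤ K →
    (3 : ℝ) ^ (∑ i ∈ Finset.univ.filter (fun i : Fin K => (i : ℕ) < k), (w i : ℕ)) < lam * 2 ^ k}

/-- the constant of the mean value -/
noncomputable def μ : ℝ := 2 / Real.log (4 / 3)

/-- the constant of the variance -/
noncomputable def σ2 : ℝ := 2 * Real.log 3 ^ 2 / Real.log (4 / 3) ^ 3

/-- the value at `k` of the density of the normal distribution of mean `μ log x` and variance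
`σ2 log x` -/
noncomputable def g (x : ℝ) (k : ℕ) : ℝ :=
  Real.exp (-(((k : ℝ) - μ * Real.log x) ^ 2 / (2 * (σ2 * Real.log x)))) /
    Real.sqrt (2 * Real.pi * (σ2 * Real.log x))

/-- THE LOCAL LIMIT LAW OF THE MAXIMUM EXCURSION. There are `δ` and functions `Ψ`, `q` such that

* `0 < δ ≤ 1`, `δ` is the density of the integers of finite total stopping time, and `δ = 1` iff all
  positive integers have finite total stopping time;
* `Ψ` is continuous, has period one, lies between `δ (log 3) / 2` and `3 δ (log 3) / 2`, and its mean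
  is `δ`;
* for every `lam ≥ 1` the proportion of the safe words of length `K` tends to `q lam` as `K → ∞`, and
  `1 - 1 / lam ≤ q lam ≤ 1`;
* for every `lam ≥ 1`, every odd modulus `Q` and every residue `r` the number of the `n ≤ x` with
  `n ≡ r` modulo `Q`, total stopping time exactly `k` and maximum excursion `t(n) ≤ lam * n` is
  `(q lam / Q) x g(x, k) (Ψ (log_3 (x / 2^k)) + o(1))`, uniformly for `|k - μ log x| ≤ K √(log x)`,
  for every `K`.

So, whatever the value `k` in this range, the proportion of the `n` with `t(n) > lam * n` among the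
`n ≤ x` with total stopping time exactly `k` tends to `1 - q lam ≤ 1 / lam`. -/
theorem result : ∃ (δ : ℝ) (Ψ q : ℝ → ℝ), 0 < δ ∧ δ ≤ 1 ∧
    (δ = 1 ↔ ∀ n : ℕ, 1 ≤ n → ∃ k : ℕ, T^[k] n = 1) ∧
    HasDensity (fun n => ∃ k : ℕ, T^[k] n = 1) δ ∧
    Continuous Ψ ∧ (∀ u : ℝ, Ψ (u + 1) = Ψ u) ∧
    (∀ u : ℝ, δ * (Real.log 3 / 2) ≤ Ψ u ∧ Ψ u ≤ δ * (3 * Real.log 3 / 2)) ∧
    (∫ u in (0 : ℝ)..1, Ψ u = δ) ∧
    ∀ lam : ℝ, 1 ≤ lam → 1 - 1 / lam ≤ q lam ∧ q lam ≤ 1 ∧
      Tendsto (fun K : ℕ => ((safeWords K lam).ncard : ℝ) / 2 ^ K) atTop (𝓝 (q lam)) ∧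
      ∀ (Q r : ℕ), Odd Q → ∀ K ε : ℝ, 0 < ε → ∃ X₀ : ℝ, ∀ x : ℝ, X₀ ≤ x → ∀ k : ℕ,
        |(k : ℝ) - μ * Real.log x| ≤ K * Real.sqrt (Real.log x) →
        |(N lam Q r x k : ℝ) / (x * g x k) - q lam / Q * Ψ (Real.logb 3 (x / 2 ^ k))| ≤ ε := by
  obtain ⟨δ, Ψ, q, h0, h1, h2, h3, h4, h5, h6, h7, h8⟩ := Pool.Agent.R468.RC.main_exc
  refine ⟨δ, Ψ, q, h0, h1, h2, h3, h4, h5, h6, h7, fun lam hl => ?_⟩
  obtain ⟨g1, g2, g3, g4⟩ := h8 lam hl
  exact ⟨g1, g2, g3.congr fun K => Pool.Agent.H499R2.ND.rK_words K lam, g4⟩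

end Pool.Agent.Results.MP_0a5adf_nt.ExcursionLocalLaw
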