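import Pool.Agent.R344.EX.C
import Pool.Agent.R344.EX.D
import Pool.Agent.Results.MP_0a5adf_nt.ExcursionLaw

/-! The maximum excursions of the terms of a trajectory. -/

set_option autoImplicit false

open Filter Topology

namespace Pool.Agent.Results.MP_0a5adf_nt.ExcursionsAlongTrajectories

/-- the accelerated `3x+1` map -/
def T (n : ℕ) : ℕ := if n % 2 = 0 then n / 2 else (3 * n + 1) / 2

/-- `t(n) < ∞` -/
def FiniteExcursion (n : ℕ) : Prop := ∃ M : ℕ, ∀ k, T^[k] n ≤ M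

/-- `t(n) ≤ c` -/
def ExcursionLE (n : ℕ) (c : ℝ) : Prop := ∀ k, (T^[k] n : ℝ) ≤ c

/-- words `w` of length `K` over `{0,1}` with `3^(w_0+...+w_(k-1)) / 2^k < lam` for `1 ≤ k ≤ K` -/
def safeWords (K : ℕ) (lam : ℝ) : Set (Fin K → Fin 2) :=
  {w | ∀ k, 1 ≤ k → k ≤ K →
    (3 : ℝ) ^ (∑ i ∈ Finset.univ.filter (fun i : Fin K => (i : ℕ) < k), (w i : ℕ)) < lam * 2 ^ k}

/-- the times below `t` which belong to `A` -/
def times (A : Set ℕ) (t : ℕ) : Set ℕ := {k | k ∈ A ∧ k < t}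

/-- the times `k < t` in `A` such that `T^k n` has a maximum excursion larger than `lam T^k n` -/
def highTimes (A : Set ℕ) (lam : ℝ) (n t : ℕ) : Set ℕ :=
  {k | k ∈ A ∧ k < t ∧ ¬ ExcursionLE (T^[k] n) (lam * T^[k] n)}

/-- the times `k < t` in `A` such that `T^m n > lam T^k n` for some `m` with `k ≤ m ≤ s` -/
def highTimesUpTo (s : ℝ) (A : Set ℕ) (lam : ℝ) (n t : ℕ) : Set ℕ :=
  {k | k ∈ A ∧ k < t ∧ ∃ m : ℕ, k ≤ m ∧ (m : ℝ) ≤ s ∧ lam * T^[k] n < T^[m] n}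

open Pool.Agent.H499R2.CO (Tz) in
theorem cast_T (n : ℕ) : ∀ k : ℕ, (((T^[k] n : ℕ) : ℤ)) = (Tz 1)^[k] (n : ℤ)
  | 0 => rfl
  | k + 1 => by
    have ih := cast_T n k
    rw [Function.iterate_succ_apply', Function.iterate_succ_apply', ← ih]
    set y := T^[k] n
    unfold T Tz
    split_ifs <;> omega

open Classical in
theorem count_eq (A : Set ℕ) (R : ℕ → Prop) (p : ℝ) (t : ℕ) :
    ∑ k ∈ Finset.range t, (if k ∈ A then (1 : ℝ) else 0) * ((if R k then 1 else 0) - p)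
      = (Set.ncard {k | k ∈ A ∧ k < t ∧ R k} : ℝ) - p * (times A t).ncard := by
  have h1 : ∀ k ∈ Finset.range t, (if k ∈ A then (1 : ℝ) else 0) * ((if R k then 1 else 0) - p)
      = (if k ∈ A ∧ R k then 1 else 0) - p * (if k ∈ A then 1 else 0) := by
    intro k _
    by_cases h : k ∈ A <;> by_cases h' : R k <;> simp [h, h']
  rw [Finset.sum_congr rfl h1, Finset.sum_sub_distrib, ← Finset.mul_sum, Finset.sum_boole, Finset.sum_boole]
  have h2 : {k | k ∈ A ∧ k < t ∧ R k} = (((Finset.range t).filter (fun k => k ∈ A ∧ R k) : Finset ℕ) : Set ℕ) := by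
    ext k
    simp only [Set.mem_ofPred_eq, Finset.coe_filter, Finset.mem_range]
    tauto
  have h3 : times A t = (((Finset.range t).filter (fun k => k ∈ A) : Finset ℕ) : Set ℕ) := by
    ext k
    simp only [times, Set.mem_ofPred_eq, Finset.coe_filter, Finset.mem_range]
    tauto
  rw [h2, h3, Set.ncard_coe_finset, Set.ncard_coe_finset]

open Pool.Agent.R344.EX in
theorem ris_iff {lam : ℝ} (hlam : 1 ≤ lam) (s : ℝ) (n k : ℕ) :
    Ris lam s (n : ℤ) k ↔ ∃ m : ℕ, k ≤ m ∧ (m : ℝ) ≤ s ∧ lam * T^[k] n < T^[m] n := by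
  unfold Ris
  simp only [← cast_T, Int.cast_natCast]
  constructor
  · rintro ⟨m, h1, h2, h3⟩; exact ⟨m, h1.le, h2, h3⟩
  · rintro ⟨m, h1, h2, h3⟩
    refine ⟨m, lt_of_le_of_ne h1 ?_, h2, h3⟩
    rintro rfl
    have : (0 : ℝ) ≤ T^[k] n := by positivity
    nlinarith

open Pool.Agent.R344.EX in
theorem risF_iff {lam : ℝ} (hlam : 1 ≤ lam) (n k : ℕ) :
    RisF lam (n : ℤ) k ↔ ¬ ExcursionLE (T^[k] n) (lam * T^[k] n) := by
  unfold RisF ExcursionLE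
  simp only [← cast_T, Int.cast_natCast]
  push Not
  constructor
  · rintro ⟨m, h1, h3⟩
    refine ⟨m - k, ?_⟩
    rw [← Function.iterate_add_apply]
    have : m - k + k = m := by omega
    rwa [this]
  · rintro ⟨j, h3⟩
    rw [← Function.iterate_add_apply] at h3
    refine ⟨j + k, ?_, h3⟩
    rcases Nat.eq_zero_or_pos j with rfl | h
    · exfalso
      rw [zero_add] at h3
      have : (0 : ℝ) ≤ T^[k] n := by positivity
      nlinarith
    · omega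

open Pool.Agent.R344.EX in
theorem bd_of_finite {n : ℕ} (h : FiniteExcursion n) : Bd (n : ℤ) := by
  obtain ⟨M, hM⟩ := h
  refine ⟨M, fun i => ?_⟩
  rw [← cast_T]
  exact_mod_cast hM i

/-- the excursions of the positive integers of a set of small density -/
theorem hi_density {β : ℝ} {q : ℝ → ℝ} (hβ1 : β ≤ 1)
    (h1 : Pool.Agent.Results.MP_0a5adf_nt.ExcursionLaw.HasDensity
      Pool.Agent.Results.MP_0a5adf_nt.ExcursionLaw.FiniteExcursion β)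
    (h2 : ∀ lam : ℝ, 1 ≤ lam → 1 - 1 / lam ≤ q lam ∧ q lam ≤ 1 ∧
      Pool.Agent.Results.MP_0a5adf_nt.ExcursionLaw.HasDensity
        (fun n => Pool.Agent.Results.MP_0a5adf_nt.ExcursionLaw.ExcursionLE n (lam * n)) (β * q lam)) :
    ∀ ε₁ : ℝ, 0 < ε₁ → ∃ Λ : ℝ, 1 ≤ Λ ∧ ∃ X₀ : ℝ, ∀ X : ℕ, X₀ ≤ X →
      (Set.ncard {x : ℤ | |x| ≤ X ∧ x ∈ Pool.Agent.R344.EX.Hi Λ} : ℝ) ≤ ε₁ * X := by
  intro ε₁ hε₁
  set Λ : ℝ := 1 / ε₁ + 1 with hΛ
  have hΛ1 : 1 ≤ Λ := by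
    have : 0 < 1 / ε₁ := by positivity
    linarith
  obtain ⟨g1, g2, g3⟩ := h2 Λ hΛ1
  have hlim : Tendsto (fun N : ℕ => (({n : ℕ | 1 ≤ n ∧ n ≤ N ∧ FiniteExcursion n}.ncard : ℝ) / N)
      - (({n : ℕ | 1 ≤ n ∧ n ≤ N ∧ ExcursionLE n (Λ * n)}.ncard : ℝ) / N)) atTop (𝓝 (β - β * q Λ)) :=
    Tendsto.sub h1 g3
  have hlt : β - β * q Λ < ε₁ := by
    have e1 : 1 / Λ < ε₁ := by
      rw [div_lt_iff₀ (by linarith), hΛ]
      have : ε₁ * (1 / ε₁ + 1) = 1 + ε₁ := by field_simp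
      rw [this]; linarith
    have e2 : β * (1 - q Λ) ≤ 1 * (1 - q Λ) := mul_le_mul_of_nonneg_right hβ1 (by linarith)
    linarith
  obtain ⟨N₀, hN₀⟩ := eventually_atTop.1 ((hlim.eventually (gt_mem_nhds hlt)).and (eventually_ge_atTop 1))
  refine ⟨Λ, hΛ1, N₀, fun X hX => ?_⟩
  obtain ⟨e1, e2⟩ := hN₀ X (by exact_mod_cast hX)
  have hX0 : (0 : ℝ) < X := by exact_mod_cast e2
  rw [← sub_div, div_lt_iff₀ hX0] at e1
  set S1 := {n : ℕ | 1 ≤ n ∧ n ≤ X ∧ FiniteExcursion n} with hS1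
  set S2 := {n : ℕ | 1 ≤ n ∧ n ≤ X ∧ ExcursionLE n (Λ * n)} with hS2
  have hf1 : S1.Finite := (Set.finite_Iic X).subset (fun n hn => hn.2.1)
  have hf2 : S2.Finite := (Set.finite_Iic X).subset (fun n hn => hn.2.1)
  have hsub : S2 ⊆ S1 := by
    rintro n ⟨a, b, c⟩
    refine ⟨a, b, ⌈Λ * n⌉₊, fun k => ?_⟩
    have := (c k).trans (Nat.le_ceil _)
    exact_mod_cast this
  have hd := Set.ncard_sdiff_add_ncard_of_subset hsub hf1
  have hd' : (((S1 \ S2).ncard : ℕ) : ℝ) = S1.ncard - S2.ncard := by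
    rw [← hd]; push_cast; ring
  have himg : {x : ℤ | |x| ≤ X ∧ x ∈ Pool.Agent.R344.EX.Hi Λ} ⊆ (fun n : ℕ => (n : ℤ)) '' (S1 \ S2) := by
    rintro x ⟨hx, hx0, ⟨M, hM⟩, i, hi⟩
    obtain ⟨n, rfl⟩ := Int.eq_ofNat_of_zero_le hx0.le
    have hn1 : 1 ≤ n := by omega
    have hnX : n ≤ X := by
      rw [abs_of_pos hx0] at hx
      exact_mod_cast hx
    refine ⟨n, ⟨⟨hn1, hnX, ⌈M⌉₊, fun k => ?_⟩, ?_⟩, rfl⟩
    · have := hM k
      rw [← cast_T] at this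
      have h3 := this.trans (Nat.le_ceil _)
      exact_mod_cast h3
    · rintro ⟨_, _, hc⟩
      have h3 := hc i
      rw [← cast_T] at hi
      push_cast at hi
      linarith
  have hfin : ((fun n : ℕ => (n : ℤ)) '' (S1 \ S2)).Finite := (hf1.subset Set.sdiff_subset).image _
  have c1 := Set.ncard_le_ncard himg hfin
  have c2 := Set.ncard_image_le (f := fun n : ℕ => (n : ℤ)) (hf1.subset (Set.sdiff_subset (t := S2)))
  have c3 : (Set.ncard {x : ℤ | |x| ≤ X ∧ x ∈ Pool.Agent.R344.EX.Hi Λ} : ℝ) ≤ ((S1 \ S2).ncard : ℝ) := by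
    exact_mod_cast c1.trans c2
  linarith

/-- The maximum excursions of the terms of almost all trajectories: the numbers `t(T^k n) / T^k n`, `k` in any
prescribed set of times, follow the limit law of `t(n) / n`. -/
theorem result : ∃ q : ℝ → ℝ, ∀ lam : ℝ, 1 ≤ lam → 1 - 1 / lam ≤ q lam ∧ q lam ≤ 1 ∧
    Tendsto (fun K : ℕ => ((safeWords K lam).ncard : ℝ) / 2 ^ K) atTop (𝓝 (q lam)) ∧
    ∀ ε : ℝ, 0 < ε →
      (∃ N₀ : ℕ, ∀ N ≥ N₀, ∀ A : Set ℕ, ({n : ℕ | 1 ≤ n ∧ n ≤ N ∧ FiniteExcursion n ∧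
        ∃ t : ℕ, (t : ℝ) ≤ 2 / Real.log (4 / 3) * Real.log n ∧ ε * Real.log n <
          |((highTimes A lam n t).ncard : ℝ) - (1 - q lam) * (times A t).ncard|}.ncard : ℝ) ≤ ε * N) ∧
      ∀ κ : ℝ, κ < 2 / Real.log (4 / 3) → ∃ N₀ : ℕ, ∀ N ≥ N₀, ∀ A : Set ℕ, ({n : ℕ | 1 ≤ n ∧ n ≤ N ∧
        ∃ t : ℕ, (t : ℝ) ≤ κ * Real.log n ∧ ε * Real.log n <
          |((highTimesUpTo (κ * Real.log n) A lam n t).ncard : ℝ) - (1 - q lam) * (times A t).ncard|}.ncard : ℝ)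
            ≤ ε * N := by
  classical
  obtain ⟨β, _, hβ1, _, hβ, q, hq⟩ := Pool.Agent.Results.MP_0a5adf_nt.ExcursionLaw.result
  have hden := hi_density hβ1 hβ (fun lam hl => ⟨(hq lam hl).1, (hq lam hl).2.1, (hq lam hl).2.2.2⟩)
  refine ⟨q, fun lam hlam => ?_⟩
  obtain ⟨q1, q2, q3, _⟩ := hq lam hlam
  have hp : Tendsto (fun J : ℕ => Pool.Agent.R344.SP.mn (Pool.Agent.R344.EX.Fs lam J) (2 ^ J)) atTop
      (𝓝 (1 - q lam)) := by
    simp only [Pool.Agent.R344.EX.mean_words]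
    exact Tendsto.sub tendsto_const_nhds q3
  have hq0 : 0 ≤ q lam := by
    have : 1 / lam ≤ 1 := by
      rw [div_le_iff₀ (by linarith)]; linarith
    linarith
  have key : ∀ (ε : ℝ) (N : ℕ) (P : ℕ → Prop) (Q : ℤ → Prop), (∀ n : ℕ, 1 ≤ n → P n → Q n) →
      (Set.ncard {n : ℤ | n ≠ 0 ∧ |n| ≤ N ∧ Q n} : ℝ) ≤ ε * N →
      (Set.ncard {n : ℕ | 1 ≤ n ∧ n ≤ N ∧ P n} : ℝ) ≤ ε * N := by
    intro ε N P Q hPQ hQ
    refine le_trans ?_ hQ
    have h := Set.ncard_le_ncard_of_injOn (s := {n : ℕ | 1 ≤ n ∧ n ≤ N ∧ P n})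
      (t := {n : ℤ | n ≠ 0 ∧ |n| ≤ N ∧ Q n}) (fun n : ℕ => (n : ℤ)) (by
        rintro n ⟨a, b, c⟩
        refine ⟨by omega, ?_, hPQ n a c⟩
        rw [Nat.abs_cast]
        exact_mod_cast b) (fun a _ b _ hab => Int.natCast_inj.1 hab)
      (Pool.Agent.R344.SP.fin_box N Q)
    exact_mod_cast h
  have hab : ∀ n : ℕ, |(((n : ℕ) : ℤ) : ℝ)| = n := by
    intro n
    rw [Int.cast_natCast, Nat.abs_cast]
  refine ⟨q1, q2, q3, fun ε hε => ⟨?_, fun κ hκ => ?_⟩⟩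
  · obtain ⟨N₀, hN₀⟩ := Pool.Agent.R344.EX.full_law_crit hlam (by linarith) (by linarith) hp hden hε
    refine ⟨N₀, fun N hN A => ?_⟩
    set w : Pool.Agent.R344.SP.Wt := ⟨fun k => if k ∈ A then 1 else 0, fun k => by
      dsimp only; split_ifs <;> simp⟩ with hw
    refine key _ _ _ _ ?_ (hN₀ N hN w)
    rintro n hn ⟨hfin, t, ht, hb⟩
    rw [hab]
    refine ⟨by exact_mod_cast hn, bd_of_finite hfin, t, ht, hb.trans_eq ?_⟩
    rw [hw]
    dsimp only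
    rw [count_eq]
    congr 3
    unfold highTimes
    congr 1
    ext k
    simp only [Set.mem_ofPred_eq, risF_iff hlam]
  · obtain ⟨N₀, hN₀⟩ := Pool.Agent.R344.EX.main_law hκ hlam hp hε
    refine ⟨N₀, fun N hN A => ?_⟩
    set w : Pool.Agent.R344.SP.Wt := ⟨fun k => if k ∈ A then 1 else 0, fun k => by
      dsimp only; split_ifs <;> simp⟩ with hw
    refine key _ _ _ _ ?_ (hN₀ N hN w)
    rintro n hn ⟨t, ht, hb⟩
    rw [hab]
    refine ⟨by exact_mod_cast hn, t, ht, hb.trans_eq ?_⟩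
    rw [hw]
    dsimp only
    rw [count_eq]
    congr 3
    unfold highTimesUpTo
    congr 1
    ext k
    simp only [Set.mem_ofPred_eq, ris_iff hlam]

end Pool.Agent.Results.MP_0a5adf_nt.ExcursionsAlongTrajectories
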