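import Mathlib
import Pool.Agent.R469.Rig

set_option autoImplicit false

/-!
The maximum excursion of `n` is, up to a bounded factor, the largest of the numbers `3^o n / 2^k`, `o` the
number of the odd terms among the first `k` terms of the trajectory. So the inequality `t(n) ≤ C n^2` is the
same as an inequality for the parities only.
-/

namespace Pool.Agent.Results.MP_0a5adf_nt.ParityCriterion

open Finset

/-- The accelerated `3x+1` map. -/
def T (n : ℕ) : ℕ := if n % 2 = 0 then n / 2 else (3 * n + 1) / 2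

/-- The number of the odd terms among `n, T n, ..., T^(k-1) n`. It depends only on `n` modulo `2 ^ k`. -/
def odds (k n : ℕ) : ℕ := ((Finset.range k).filter fun i => T^[i] n % 2 = 1).card

open Pool.Agent.R469

/-- the terms before the first occurrence of a value are pairwise different -/
lemma inj_first {n j k : ℕ} (hj : T^[j] n = T^[k] n) (hmin : ∀ i < j, T^[i] n ≠ T^[k] n) :
    ∀ i < j, ∀ l < j, T^[i] n = T^[l] n → i = l := by
  have key : ∀ i l : ℕ, i < l → l < j → T^[i] n ≠ T^[l] n := by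
    intro i l hil hlj he
    have h1 : T^[j - l + i] n = T^[j] n := by
      rw [Function.iterate_add_apply, he, ← Function.iterate_add_apply, show j - l + l = j by omega]
    exact hmin (j - l + i) (by omega) (h1.trans hj)
  intro i hi l hl he
  rcases lt_trichotomy i l with h1 | h1 | h1
  · exact absurd he (key i l h1 hl)
  · exact h1
  · exact absurd he.symm (key l i h1 hi)

/-- the number of odd terms only depends on the residue class -/
lemma odds_mod (k : ℕ) : ∀ n m : ℕ, odds k (n + 2 ^ k * m) = odds k n ∧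
    T^[k] (n + 2 ^ k * m) = T^[k] n + 3 ^ odds k n * m := by
  induction k with
  | zero => intro n m; simp [odds]
  | succ k ih =>
    intro n m
    have h := ih n (2 * m)
    have e : n + 2 ^ k * (2 * m) = n + 2 ^ (k + 1) * m := by ring
    rw [e] at h
    have hs : ∀ x : ℕ, odds (k + 1) x = odds k x + T^[k] x % 2 := fun x => Rig.odds_succ k x
    rw [hs, hs, h.1, h.2, Function.iterate_succ_apply', Function.iterate_succ_apply', h.2]
    have e2 : T^[k] n + 3 ^ odds k n * (2 * m) = T^[k] n + 2 * (3 ^ odds k n * m) := by ring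
    rw [e2]
    refine ⟨by omega, ?_⟩
    rcases Nat.mod_two_eq_zero_or_one (T^[k] n) with h' | h'
    · have a1 : 2 * T (T^[k] n) = T^[k] n := Rig.T_even h'
      have a2 : 2 * T (T^[k] n + 2 * (3 ^ odds k n * m)) = T^[k] n + 2 * (3 ^ odds k n * m) :=
        Rig.T_even (by omega)
      rw [h', add_zero]
      omega
    · have a1 : 2 * T (T^[k] n) = 3 * T^[k] n + 1 := Rig.T_odd h'
      have a2 : 2 * T (T^[k] n + 2 * (3 ^ odds k n * m)) = 3 * (T^[k] n + 2 * (3 ^ odds k n * m)) + 1 :=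
        Rig.T_odd (by omega)
      rw [h', pow_succ]
      have e3 : 3 ^ odds k n * 3 * m = 3 * (3 ^ odds k n * m) := by ring
      rw [e3]
      omega

/-- (1) There is `K` such that for all `n ≥ 1` and `k`: `3 ^ o n / 2 ^ k ≤ T^k n`, where `o` is the number of
the odd terms among the first `k` ones, and `T^k n ≤ K * 3 ^ o' n / 2 ^ j` for some `j ≤ k`, where `o'` is the
number of the odd terms among the first `j` ones. So `t(n)` is the supremum over `k` of the numbers
`3 ^ o n / 2 ^ k` up to a factor between `1` and `K` (both may be infinite).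
(2) For every function `F`: `t(n) ≤ C F(n)` for all `n ≥ 1`, for some `C`, if and only if
`3 ^ o n ≤ C F(n) 2 ^ k` for all `n ≥ 1` and `k`, for some `C`.
(3) The bound `t(n) ≤ C n ^ 2` of Q1 holds for some `C` if and only if there is `C` such that for all `k` and
all `n` in `[1, 2 ^ k]`, the standard representatives of the residue classes modulo `2 ^ k`,
`3 ^ o ≤ C n 2 ^ k`. -/
theorem result :
    (∃ K : ℝ, 0 < K ∧ ∀ n : ℕ, 1 ≤ n → ∀ k : ℕ,
      (3 : ℝ) ^ odds k n * n / 2 ^ k ≤ (T^[k] n : ℕ) ∧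
      ∃ j ≤ k, ((T^[k] n : ℕ) : ℝ) ≤ K * ((3 : ℝ) ^ odds j n * n / 2 ^ j)) ∧
    (∀ F : ℕ → ℝ,
      (∃ C : ℝ, ∀ n : ℕ, 1 ≤ n → ∀ k : ℕ, ((T^[k] n : ℕ) : ℝ) ≤ C * F n) ↔
        ∃ C : ℝ, ∀ n : ℕ, 1 ≤ n → ∀ k : ℕ, (3 : ℝ) ^ odds k n * n ≤ C * F n * 2 ^ k) ∧
    ((∃ C : ℝ, ∀ n : ℕ, 1 ≤ n → ∀ k : ℕ, ((T^[k] n : ℕ) : ℝ) ≤ C * (n : ℝ) ^ 2) ↔
      ∃ C : ℝ, ∀ k n : ℕ, 1 ≤ n → n ≤ 2 ^ k → (3 : ℝ) ^ odds k n ≤ C * n * 2 ^ k) := by
  obtain ⟨K0, hK0, hK⟩ := Rig.log_upper
  have hlow : ∀ n : ℕ, 1 ≤ n → ∀ k : ℕ, (3 : ℝ) ^ odds k n * n / 2 ^ k ≤ (T^[k] n : ℕ) := by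
    intro n _ k
    have h : 3 ^ odds k n * n ≤ 2 ^ k * T^[k] n := Rig.pow_mul_le k n
    rw [div_le_iff₀ (by positivity), mul_comm ((T^[k] n : ℕ) : ℝ)]
    exact_mod_cast h
  have hup : ∀ n : ℕ, 1 ≤ n → ∀ k : ℕ,
      ∃ j ≤ k, ((T^[k] n : ℕ) : ℝ) ≤ Real.exp K0 * ((3 : ℝ) ^ odds j n * n / 2 ^ j) := by
    intro n hn k
    classical
    have hex : ∃ j, T^[j] n = T^[k] n := ⟨k, rfl⟩
    refine ⟨Nat.find hex, Nat.find_min' hex rfl, ?_⟩
    set j := Nat.find hex with hjdef
    have hj : T^[j] n = T^[k] n := Nat.find_spec hex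
    have hinj := inj_first hj (fun i hi => Nat.find_min hex hi)
    have h1 : Real.log (T^[j] n : ℕ) ≤
        Real.log n + odds j n * Real.log 3 - j * Real.log 2 + K0 * (1 : ℝ) ^ (-(49 / 1000) : ℝ) :=
      hK n j hn hinj 1 le_rfl (fun i _ => by exact_mod_cast Rig.iter_pos hn i)
    rw [Real.one_rpow, mul_one, hj] at h1
    have hn0 : (0 : ℝ) < n := by exact_mod_cast hn
    have hk0 : (0 : ℝ) < (T^[k] n : ℕ) := by exact_mod_cast Rig.iter_pos hn k
    rw [← Real.exp_log hk0]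
    have h2 : Real.exp K0 * ((3 : ℝ) ^ odds j n * n / 2 ^ j) =
        Real.exp (Real.log n + odds j n * Real.log 3 - j * Real.log 2 + K0) := by
      rw [Real.exp_add, Real.exp_sub, Real.exp_add, Real.exp_log hn0, mul_comm ((odds j n : ℕ) : ℝ),
        mul_comm ((j : ℕ) : ℝ), Real.exp_mul, Real.exp_mul, Real.exp_log (by norm_num),
        Real.exp_log (by norm_num), Real.rpow_natCast, Real.rpow_natCast]
      ring
    rw [h2]
    exact Real.exp_le_exp.2 h1
  have hgen : ∀ F : ℕ → ℝ,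
      (∃ C : ℝ, ∀ n : ℕ, 1 ≤ n → ∀ k : ℕ, ((T^[k] n : ℕ) : ℝ) ≤ C * F n) ↔
        ∃ C : ℝ, ∀ n : ℕ, 1 ≤ n → ∀ k : ℕ, (3 : ℝ) ^ odds k n * n ≤ C * F n * 2 ^ k := by
    intro F
    constructor
    · rintro ⟨C, hC⟩
      refine ⟨C, fun n hn k => ?_⟩
      have h1 := (hlow n hn k).trans (hC n hn k)
      rwa [div_le_iff₀ (by positivity)] at h1
    · rintro ⟨C, hC⟩
      refine ⟨Real.exp K0 * C, fun n hn k => ?_⟩
      obtain ⟨j, _, hj⟩ := hup n hn k
      have h1 : (3 : ℝ) ^ odds j n * n / 2 ^ j ≤ C * F n := by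
        rw [div_le_iff₀ (by positivity)]
        exact hC n hn j
      have h2 := mul_le_mul_of_nonneg_left h1 (Real.exp_pos K0).le
      linarith
  refine ⟨⟨Real.exp K0, Real.exp_pos _, fun n hn k => ⟨hlow n hn k, hup n hn k⟩⟩, hgen, ?_⟩
  rw [hgen (fun n => (n : ℝ) ^ 2)]
  constructor
  · rintro ⟨C, hC⟩
    refine ⟨C, fun k n hn _ => ?_⟩
    have h1 := hC n hn k
    have hn0 : (0 : ℝ) < n := by exact_mod_cast hn
    have h2 : (3 : ℝ) ^ odds k n * n ≤ (C * n * 2 ^ k) * n := by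
      have : C * (n : ℝ) ^ 2 * 2 ^ k = (C * n * 2 ^ k) * n := by ring
      linarith
    exact le_of_mul_le_mul_right h2 hn0
  · rintro ⟨C, hC⟩
    refine ⟨C, fun n hn k => ?_⟩
    have hn0 : (0 : ℝ) < n := by exact_mod_cast hn
    have hC0 : 0 ≤ C := by
      have := hC 0 1 le_rfl (by norm_num)
      simp only [odds, range_zero, filter_empty, card_empty, pow_zero, Nat.cast_one, mul_one] at this
      linarith
    -- the least positive representative of `n` modulo `2 ^ k`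
    obtain ⟨r, m, hr1, hr2, hrm⟩ : ∃ r m : ℕ, 1 ≤ r ∧ r ≤ 2 ^ k ∧ n = r + 2 ^ k * m := by
      have hp : 0 < 2 ^ k := by positivity
      refine ⟨(n - 1) % 2 ^ k + 1, (n - 1) / 2 ^ k, by omega, ?_, ?_⟩
      · have := Nat.mod_lt (n - 1) hp
        omega
      · have := Nat.mod_add_div (n - 1) (2 ^ k)
        omega
    have h1 := hC k r hr1 hr2
    have h2 : odds k n = odds k r := by rw [hrm]; exact (odds_mod k r m).1
    have h3 : (r : ℝ) ≤ n := by
      have : r ≤ n := by rw [hrm]; exact Nat.le_add_right _ _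
      exact_mod_cast this
    have h4 : (3 : ℝ) ^ odds k n ≤ C * n * 2 ^ k := by
      rw [h2]
      refine h1.trans ?_
      have : C * (r : ℝ) ≤ C * n := mul_le_mul_of_nonneg_left h3 hC0
      exact mul_le_mul_of_nonneg_right this (by positivity)
    have h5 := mul_le_mul_of_nonneg_right h4 hn0.le
    have : C * (n : ℝ) ^ 2 * 2 ^ k = C * n * 2 ^ k * n := by ring
    show (3 : ℝ) ^ odds k n * n ≤ C * (n : ℝ) ^ 2 * 2 ^ k
    linarith

end Pool.Agent.Results.MP_0a5adf_nt.ParityCriterion
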