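import Pool.Agent.R468.RC.V

/-!
THE INTEGERS WITH MAXIMUM EXCURSION AT MOST `y` AND ONE FIXED TOTAL STOPPING TIME: the tree of `1` inside
`[1, y]`, and the joint law of an integer and its maximum excursion on the levels of the tree.

Author: helper468. Uses the local limit law of the total stopping time in residue classes
(Pool/Agent/R468/GL, Pool/Agent/R468/RC) and the thin sets of Pool/Agent/R344/TH.
-/

set_option autoImplicit false

namespace Pool.Agent.Results.MP_0a5adf_nt.TruncatedTree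

open Filter Topology

/-- the accelerated `3x+1` map -/
def T (n : ℕ) : ℕ := if n % 2 = 0 then n / 2 else (3 * n + 1) / 2

/-- `t(n) ≤ c`, where `t(n)` is the maximum excursion of `n` -/
def ExcursionLE (n : ℕ) (c : ℝ) : Prop := ∀ k : ℕ, (T^[k] n : ℝ) ≤ c

/-- `k` is the total stopping time of `n` -/
def IsTotalStoppingTime (n k : ℕ) : Prop := T^[k] n = 1 ∧ ∀ j < k, T^[j] n ≠ 1

/-- the number of the positive integers `n ≤ x` with total stopping time exactly `k`, with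
`t(n) ≤ v x` and with `n ≡ r` modulo `Q` -/
noncomputable def N (v : ℝ) (Q r : ℕ) (x : ℝ) (k : ℕ) : ℕ :=
  {n : ℕ | 1 ≤ n ∧ (n : ℝ) ≤ x ∧ (ExcursionLE n (v * x) ∧ n ≡ r [MOD Q]) ∧ IsTotalStoppingTime n k}.ncard

/-- the number of the positive integers `n ≤ x` with total stopping time exactly `k` -/
noncomputable def All (x : ℝ) (k : ℕ) : ℕ :=
  {n : ℕ | 1 ≤ n ∧ (n : ℝ) ≤ x ∧ True ∧ IsTotalStoppingTime n k}.ncard

/-- the number of the integers with total stopping time exactly `k` and maximum excursion at most `y`: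
the size of the `k`-th level of the tree of `1` inside `[1, y]` -/
noncomputable def Tree (y : ℝ) (k : ℕ) : ℕ :=
  {n : ℕ | 1 ≤ n ∧ ExcursionLE n y ∧ IsTotalStoppingTime n k}.ncard

/-- the positive integers with the property `P` have the natural density `δ` -/
def HasDensity (P : ℕ → Prop) (δ : ℝ) : Prop :=
  Tendsto (fun M : ℕ => ({n : ℕ | 1 ≤ n ∧ n ≤ M ∧ P n}.ncard : ℝ) / M) atTop (𝓝 δ)

/-- the number of the odd terms among `n, T n, ..., T^(s-1) n` -/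
def odds (s n : ℕ) : ℕ := ((Finset.range s).filter fun i => T^[i] n % 2 = 1).card

/-- the largest of the ratios `3^(odds s n) / 2^s`, `0 ≤ s ≤ J`; it depends only on `n` modulo `2^J`,
that is, on the first `J` parities of the trajectory of `n` -/
noncomputable def peak (J n : ℕ) : ℝ :=
  (Finset.range (J + 1)).sup' ⟨0, Finset.mem_range.2 (Nat.succ_pos J)⟩ (fun s => (3 : ℝ) ^ odds s n / 2 ^ s)

/-- `min (1, v / peak)` -/
noncomputable def share (v : ℝ) (J n : ℕ) : ℝ := min 1 (v / peak J n)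

/-- the mean of the shares over the residues modulo `2^J` -/
noncomputable def κJ (v : ℝ) (J : ℕ) : ℝ := (∑ c ∈ Finset.range (2 ^ J), share v J c) / 2 ^ J

/-- the mean of `share * Ψ (u + log_3 share)` over the residues modulo `2^J` -/
noncomputable def ΦJ (Ψ : ℝ → ℝ) (v u : ℝ) (J : ℕ) : ℝ :=
  (∑ c ∈ Finset.range (2 ^ J), share v J c * Ψ (u + Real.logb 3 (share v J c))) / 2 ^ J

/-- the constant of the mean value -/
noncomputable def μ : ℝ := 2 / Real.log (4 / 3)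

/-- the constant of the variance -/
noncomputable def σ2 : ℝ := 2 * Real.log 3 ^ 2 / Real.log (4 / 3) ^ 3

/-- the value at `k` of the density of the normal distribution of mean `μ log x` and variance
`σ2 log x` -/
noncomputable def g (x : ℝ) (k : ℕ) : ℝ :=
  Real.exp (-(((k : ℝ) - μ * Real.log x) ^ 2 / (2 * (σ2 * Real.log x)))) /
    Real.sqrt (2 * Real.pi * (σ2 * Real.log x))

/-- THE JOINT LAW OF `n` AND `t(n)` ON THE LEVELS OF THE TOTAL STOPPING TIME. There are `δ` and functions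
`Ψ`, `κ`, `Φ` such that

* `0 < δ ≤ 1`, `δ` is the density of the integers of finite total stopping time, and `δ = 1` iff all
  positive integers have finite total stopping time;
* `Ψ` is continuous, has period one, lies between `δ (log 3) / 2` and `3 δ (log 3) / 2`, its mean is `δ`,
  and `x g(x, k) (Ψ (log_3 (x / 2^k)) + o(1))` integers `n ≤ x` have total stopping time exactly `k`,
  uniformly for `|k - μ log x| ≤ K √(log x)`;
* for `v ≥ 1` the means `κJ v J` and `ΦJ Ψ v u J` have limits `κ v` and `Φ v u` as `J → ∞`;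
  `1 - 1 / v ≤ κ v ≤ 1`, `κ v ≥ 1/4`; `Φ v` is continuous, has period one, lies between
  `κ v δ (log 3) / 2` and `3 κ v δ (log 3) / 2`, and its mean is `δ κ v`;
* JOINT LAW: for every odd `Q` and every `r` the number of the `n ≤ x` with `n ≡ r` modulo `Q`, total
  stopping time exactly `k` and `t(n) ≤ v x` is `x g(x, k) (Φ v (log_3 (x / 2^k)) / Q + o(1))`, uniformly
  for `|k - μ log x| ≤ K √(log x)` and for all `v ≥ 1`;
* THE TREE INSIDE `[1, y]`: the number of the integers with total stopping time exactly `k` and maximum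
  excursion `t(n) ≤ y` is `y g(y, k) (Φ 1 (log_3 (y / 2^k)) + o(1))`, uniformly for
  `|k - μ log y| ≤ K √(log y)`. -/
theorem result : ∃ (δ : ℝ) (Ψ κ : ℝ → ℝ) (Φ : ℝ → ℝ → ℝ), 0 < δ ∧ δ ≤ 1 ∧
    (δ = 1 ↔ ∀ n : ℕ, 1 ≤ n → ∃ k : ℕ, T^[k] n = 1) ∧
    HasDensity (fun n => ∃ k : ℕ, T^[k] n = 1) δ ∧
    Continuous Ψ ∧ (∀ u : ℝ, Ψ (u + 1) = Ψ u) ∧
    (∀ u : ℝ, δ * (Real.log 3 / 2) ≤ Ψ u ∧ Ψ u ≤ δ * (3 * Real.log 3 / 2)) ∧
    (∫ u in (0 : ℝ)..1, Ψ u = δ) ∧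
    (∀ K ε : ℝ, 0 < ε → ∃ X₀ : ℝ, ∀ x : ℝ, X₀ ≤ x → ∀ k : ℕ,
      |(k : ℝ) - μ * Real.log x| ≤ K * Real.sqrt (Real.log x) →
      |(All x k : ℝ) / (x * g x k) - 1 * Ψ (Real.logb 3 (x / 2 ^ k))| ≤ ε) ∧
    (∀ v : ℝ, 1 ≤ v → 1 - 1 / v ≤ κ v ∧ 1 / 4 ≤ κ v ∧ κ v ≤ 1 ∧
      Tendsto (fun J => κJ v J) atTop (𝓝 (κ v)) ∧
      Continuous (Φ v) ∧ (∀ u : ℝ, Φ v (u + 1) = Φ v u) ∧
      (∀ u : ℝ, κ v * (δ * (Real.log 3 / 2)) ≤ Φ v u ∧ Φ v u ≤ κ v * (δ * (3 * Real.log 3 / 2))) ∧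
      (∫ u in (0 : ℝ)..1, Φ v u = δ * κ v) ∧
      ∀ u : ℝ, Tendsto (fun J => ΦJ Ψ v u J) atTop (𝓝 (Φ v u))) ∧
    (∀ (Q r : ℕ), Odd Q → ∀ K ε : ℝ, 0 < ε → ∃ X₀ : ℝ, ∀ x : ℝ, X₀ ≤ x → ∀ k : ℕ,
      |(k : ℝ) - μ * Real.log x| ≤ K * Real.sqrt (Real.log x) → ∀ v : ℝ, 1 ≤ v →
      |(N v Q r x k : ℝ) / (x * g x k) - Φ v (Real.logb 3 (x / 2 ^ k)) / Q| ≤ ε) ∧
    (∀ K ε : ℝ, 0 < ε → ∃ Y₀ : ℝ, ∀ y : ℝ, Y₀ ≤ y → ∀ k : ℕ,
      |(k : ℝ) - μ * Real.log y| ≤ K * Real.sqrt (Real.log y) →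
      |(Tree y k : ℝ) / (y * g y k) - Φ 1 (Real.logb 3 (y / 2 ^ k))| ≤ ε) := by
  obtain ⟨δ, Ψ, κ, Φ, h0, h1, h2, h3, h4, h5, h6, h7, h8, h9, h10⟩ := Pool.Agent.R468.RC.main_joint
  refine ⟨δ, Ψ, κ, Φ, h0, h1, h2, h3, h4, h5, h6, h7, h8, h9, h10, fun K ε hε => ?_⟩
  obtain ⟨Y₀, hY⟩ := h10 1 0 odd_one K ε hε
  refine ⟨Y₀, fun y hy k hk => ?_⟩
  have h11 := hY y hy k hk 1 le_rfl
  rw [Nat.cast_one, div_one] at h11
  have e : Tree y k = N 1 1 0 y k := by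
    unfold Tree N
    congr 1
    ext n
    simp only [Set.mem_ofPred_eq, one_mul, Nat.modEq_one, and_true]
    constructor
    · rintro ⟨a, b, c⟩
      exact ⟨a, b 0, b, c⟩
    · rintro ⟨a, _, b, c⟩
      exact ⟨a, b, c⟩
  rw [e]
  exact h11

end Pool.Agent.Results.MP_0a5adf_nt.TruncatedTree
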